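import Mathlib

set_option autoImplicit false

/-! Arithmetic modulo `14293` for `MP_8a3680_nt`. -/

namespace Pool.Agent.Q38.SP397

/-- the partial products of `∏ (A - 216 ^ (12 (k + 1)²))` modulo `14293` -/
def val (A : ℕ) : ℕ → ℕ
  | 0 => 1
  | k + 1 => val A k * (A + 14293 - (216 ^ (12 * ((k + 1) ^ 2 % 397))) % 14293) % 14293

theorem g_pow : (216 : ZMod 14293) ^ 4764 = 1 := by
  have h : (216 ^ 4764) % 14293 = 1 % 14293 := by decide +kernel
  have h2 := (ZMod.natCast_eq_natCast_iff' (216 ^ 4764) 1 14293).mpr h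
  rw [Nat.cast_pow] at h2
  simpa using h2

theorem g_prim : IsPrimitiveRoot (216 : ZMod 14293) 4764 := by
  have h1 : ∀ d : ℕ, (216 ^ d) % 14293 ≠ 1 → (216 : ZMod 14293) ^ d ≠ 1 := by
    intro d hd h
    apply hd
    have h2 : ((216 ^ d : ℕ) : ZMod 14293) = ((1 : ℕ) : ZMod 14293) := by
      push_cast
      exact h
    exact (ZMod.natCast_eq_natCast_iff' _ _ _).mp h2
  have horder : orderOf (216 : ZMod 14293) = 4764 := by
    apply orderOf_eq_of_pow_and_pow_div_prime (by norm_num) g_pow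
    intro r hr hdvd
    have h4764 : (4764 : ℕ) = 2 * 2 * (3 * 397) := by norm_num
    rw [h4764] at hdvd
    have hr' : r = 2 ∨ r = 3 ∨ r = 397 := by
      rcases (Nat.Prime.dvd_mul hr).mp hdvd with h | h
      · rcases (Nat.Prime.dvd_mul hr).mp h with h | h <;>
          exact Or.inl ((Nat.prime_dvd_prime_iff_eq hr (by norm_num)).mp h)
      · rcases (Nat.Prime.dvd_mul hr).mp h with h | h
        · exact Or.inr (Or.inl ((Nat.prime_dvd_prime_iff_eq hr (by norm_num)).mp h))
        · exact Or.inr (Or.inr ((Nat.prime_dvd_prime_iff_eq hr (by norm_num)).mp h))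
    rcases hr' with h | h | h <;> subst h <;> apply h1 <;> decide +kernel
  rw [← horder]
  exact IsPrimitiveRoot.orderOf _

theorem g_pow_mod (m : ℕ) : (216 : ZMod 14293) ^ (12 * m) = 216 ^ (12 * (m % 397)) := by
  conv_lhs => rw [← Nat.div_add_mod m 397]
  rw [show 12 * (397 * (m / 397) + m % 397) = 4764 * (m / 397) + 12 * (m % 397) by ring,
    pow_add, pow_mul, g_pow, one_pow, one_mul]

theorem val_cast (A : ℕ) (n : ℕ) : (val A n : ZMod 14293) =
    ∏ k ∈ Finset.range n, ((A : ZMod 14293) - 216 ^ (12 * (k + 1) ^ 2)) := by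
  induction n with
  | zero => simp [val]
  | succ n ih =>
    rw [Finset.prod_range_succ, ← ih, val, ZMod.natCast_mod, Nat.cast_mul]
    congr 1
    have h1 : (216 ^ (12 * ((n + 1) ^ 2 % 397))) % 14293 ≤ A + 14293 :=
      (Nat.mod_lt _ (by norm_num)).le.trans (by omega)
    rw [Nat.cast_sub h1, ZMod.natCast_mod, g_pow_mod]
    push_cast
    have h2 : (14293 : ZMod 14293) = 0 := by
      have := ZMod.natCast_self 14293
      exact_mod_cast this
    rw [h2, add_zero]

theorem prod_eq (A V e : ℕ) (hA : 216 ^ e % 14293 = A) (hV : val A 198 = V) :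
    ∏ k ∈ Finset.range 198, ((216 : ZMod 14293) ^ e - 216 ^ (12 * (k + 1) ^ 2)) =
      (V : ZMod 14293) := by
  have hA' : (216 : ZMod 14293) ^ e = (A : ZMod 14293) := by
    rw [← hA, ZMod.natCast_mod, Nat.cast_pow, Nat.cast_ofNat]
  rw [← hV, val_cast, hA']

theorem mod_aux (c d V : ℕ) (hne : (V ^ 2 + c) ^ 2 % 14293 ≠ d % 14293) :
    ((V : ZMod 14293) ^ 2 + c) ^ 2 - d ≠ 0 := by
  intro h
  apply hne
  rw [sub_eq_zero] at h
  have h5 : (((V ^ 2 + c) ^ 2 : ℕ) : ZMod 14293) = (d : ZMod 14293) := by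
    rw [← h, Nat.cast_pow, Nat.cast_add, Nat.cast_pow]
  exact (ZMod.natCast_eq_natCast_iff' _ _ _).mp h5

theorem v1 : 216 ^ (397 * 1) % 14293 = 5020 ∧ val 5020 198 = 10595 := by
  constructor <;> decide +kernel

theorem v11 : 216 ^ (397 * 11) % 14293 = 10771 ∧ val 10771 198 = 3698 := by
  constructor <;> decide +kernel

theorem v5 : 216 ^ (397 * 5) % 14293 = 3522 ∧ val 3522 198 = 8994 := by
  constructor <;> decide +kernel

theorem v7 : 216 ^ (397 * 7) % 14293 = 9273 ∧ val 9273 198 = 5299 := by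
  constructor <;> decide +kernel

end Pool.Agent.Q38.SP397
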